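import Pool.Agent.Lib.MP_27a2ed_lc.FM
import Pool.Agent.Lib.MP_27a2ed_lc.Coding

set_option autoImplicit false

namespace Pool.Agent.Results.MP_27a2ed_lc.FreeGroupRankTwo

open Set Topology Pool.Agent.Lib.MP_27a2ed_lc

universe u v

/-- A countable Borel equivalence relation. -/
structure IsCBER {X : Type u} [MeasurableSpace X] (E : X → X → Prop) : Prop where
  equivalence : Equivalence E
  borel : MeasurableSet {p : X × X | E p.1 p.2}
  countable_classes : ∀ x : X, {y : X | E x y}.Countable

/-- A Borel reduction of `E` to `F`. -/
def IsBorelReduction {X : Type u} {Y : Type v} [MeasurableSpace X] [MeasurableSpace Y]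
    (E : X → X → Prop) (F : Y → Y → Prop) (f : X → Y) : Prop :=
  Measurable f ∧ ∀ x x' : X, E x x' ↔ F (f x) (f x')

/-- `F` is a universal countable Borel equivalence relation on a standard Borel space: every
countable Borel equivalence relation on a standard Borel space admits a Borel reduction to it. -/
def IsUniversalCBER {Y : Type v} [MeasurableSpace Y] (F : Y → Y → Prop) : Prop :=
  StandardBorelSpace Y ∧ IsCBER F ∧
    ∀ (X : Type u) [MeasurableSpace X] [StandardBorelSpace X] (E : X → X → Prop),
      IsCBER E → ∃ f : X → Y, IsBorelReduction E F f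

section
variable {G : Type v} [Group G]

/-- The shift action of a group `G` on `G → Bool`. -/
def shift (g : G) (x : G → Bool) : G → Bool := fun h => x (g⁻¹ * h)

/-- A subshift: a nonempty closed shift-invariant subset. -/
def IsSubshift (K : Set (G → Bool)) : Prop :=
  K.Nonempty ∧ IsClosed K ∧ ∀ g : G, ∀ x ∈ K, shift g x ∈ K

/-- A minimal subshift: every orbit in it is dense in it. -/
def IsMinimalSubshift (K : Set (G → Bool)) : Prop :=
  IsSubshift K ∧ ∀ x ∈ K, K ⊆ closure (Set.range fun g : G => shift g x)

/-- The restriction to `K` of the orbit equivalence relation of the shift action. -/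
def orbitRel (K : Set (G → Bool)) (x y : K) : Prop :=
  ∃ g : G, shift g (x : G → Bool) = (y : G → Bool)

end

/-- `G` is minimal subshift universal. -/
def MinimalSubshiftUniversal (G : Type v) [Group G] : Prop :=
  ∃ K : Set (G → Bool), IsMinimalSubshift K ∧ IsUniversalCBER.{u} (orbitRel K)

section
variable {G : Type v} [Group G]

lemma shift_one (x : G → Bool) : shift (1 : G) x = x := by
  funext h; simp [shift]

lemma shift_mul (g h : G) (x : G → Bool) : shift (g * h) x = shift g (shift h x) := by
  funext k; simp [shift, mul_assoc]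

lemma shift_continuous (g : G) : Continuous (shift g : (G → Bool) → (G → Bool)) :=
  continuous_pi fun _ => continuous_apply _

lemma orbitRel_isCBER [Countable G] (K : Set (G → Bool)) : IsCBER (orbitRel K) := by
  refine ⟨⟨?_, ?_, ?_⟩, ?_, ?_⟩
  · intro x
    exact ⟨1, shift_one _⟩
  · rintro x y ⟨g, hg⟩
    refine ⟨g⁻¹, ?_⟩
    rw [← hg, ← shift_mul, inv_mul_cancel, shift_one]
  · rintro x y z ⟨g, hg⟩ ⟨h, hh⟩
    refine ⟨h * g, ?_⟩
    rw [shift_mul, hg, hh]
  · have : {p : K × K | orbitRel K p.1 p.2} =
        ⋃ g : G, {p : K × K | shift g (p.1 : G → Bool) = (p.2 : G → Bool)} := by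
      ext p
      simp [orbitRel]
    rw [this]
    apply MeasurableSet.iUnion
    intro g
    apply measurableSet_eq_fun
    · exact (shift_continuous g).measurable.comp (measurable_subtype_coe.comp measurable_fst)
    · exact measurable_subtype_coe.comp measurable_snd
  · intro x
    have : {y : K | orbitRel K x y} ⊆
        (fun y : K => (y : G → Bool)) ⁻¹' (Set.range fun g : G => shift g (x : G → Bool)) := by
      rintro y ⟨g, hg⟩
      exact ⟨g, hg⟩
    exact ((Set.countable_range _).preimage Subtype.val_injective).mono this

end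

/-- The free group of rank two is minimal subshift universal. -/
theorem result : MinimalSubshiftUniversal.{u} (FreeGroup (Fin 2)) := by
  have hshift : ∀ (g : F2) (z : Z), shift g (code z) = code (Phi g z) := by
    intro g z
    funext h
    rw [code_equivariant]
    rfl
  have hK : IsClosed (Set.range code) := (isCompact_range code_continuous).isClosed
  refine ⟨Set.range code, ⟨⟨⟨code (fun _ => 0), ⟨_, rfl⟩⟩, hK, ?_⟩, ?_⟩, ?_, ?_, ?_⟩
  · rintro g _ ⟨z, rfl⟩
    exact ⟨Phi g z, (hshift g z).symm⟩
  · rintro _ ⟨z, rfl⟩ _ ⟨z', rfl⟩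
    have h1 : code z' ∈ code '' closure (Set.range fun g : F2 => Phi g z) :=
      ⟨z', orbit_dense z z', rfl⟩
    have h2 := image_closure_subset_closure_image code_continuous h1
    have h3 : code '' (Set.range fun g : F2 => Phi g z) =
        Set.range fun g : F2 => shift g (code z) := by
      rw [← Set.range_comp]
      congr 1
      funext g
      exact (hshift g z).symm
    rwa [h3] at h2
  · exact hK.measurableSet.standardBorel
  · exact orbitRel_isCBER _
  · intro X _ _ E hE
    obtain ⟨g, hg, hinv, hgE⟩ := feldman_moore E hE.equivalence hE.borel hE.countable_classes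
    have hcount : MeasurableSpace.CountablyGenerated X := inferInstance
    set cd : X → ℕ → Bool := MeasurableSpace.mapNatBool X with hcd
    have hcdm : Measurable cd := MeasurableSpace.measurable_mapNatBool X
    have hcdi : Function.Injective cd := MeasurableSpace.injective_mapNatBool X
    refine ⟨fun x => ⟨code (pt g hinv cd x), ⟨_, rfl⟩⟩, ?_, ?_⟩
    · exact (code_pt_measurable g hinv hg cd hcdm).subtype_mk
    · intro x x'
      have hgE' : ∀ n x, E x (g n x) := fun n x => (hgE x (g n x)).2 ⟨n, rfl⟩
      constructor
      · intro h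
        obtain ⟨w, hw⟩ := pt_orbit_of g hinv E cd (fun x y hxy => (hgE x y).1 hxy) x x' h
        refine ⟨w, ?_⟩
        rw [hshift, hw]
      · rintro ⟨w, hw⟩
        rw [hshift] at hw
        exact E_of_pt_orbit g hinv E hE.equivalence hgE' cd hcdi x x' ⟨w, code_injective hw⟩

end Pool.Agent.Results.MP_27a2ed_lc.FreeGroupRankTwo
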